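import Pool.Agent.Helper17.OD.GoalsGM

/-!
MP_064283_lc, project OD of helper17, packet CAD.
-/

set_option autoImplicit false

open Set
open Cardinal hiding univ

universe u v

namespace Pool.Agent.Helper17.OD.PkCAD

/-- Polish notation. -/
def enc {L : Type u} : Tr L → List (Option (ℕ ⊕ L))
  | .nat n => [some (Sum.inl n)]
  | .ord a => [some (Sum.inr a)]
  | .pr s t => none :: (enc s ++ enc t)

theorem enc_inj {L : Type u} : ∀ (s t : Tr L) (l l' : List (Option (ℕ ⊕ L))),
    enc s ++ l = enc t ++ l' → s = t ∧ l = l' := by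
  intro s
  induction s with
  | nat n =>
    intro t l l' h
    cases t with
    | nat m => simpa [enc] using h
    | ord a => simp [enc] at h
    | pr x y => simp [enc] at h
  | ord a =>
    intro t l l' h
    cases t with
    | nat m => simp [enc] at h
    | ord b => simpa [enc] using h
    | pr x y => simp [enc] at h
  | pr s1 s2 ih1 ih2 =>
    intro t l l' h
    cases t with
    | nat m => simp [enc] at h
    | ord b => simp [enc] at h
    | pr x y =>
      simp only [enc, List.cons_append, List.append_assoc, List.cons.injEq, true_and] at h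
      obtain ⟨h1, h2⟩ := ih1 _ _ _ h
      obtain ⟨h3, h4⟩ := ih2 _ _ _ h2
      exact ⟨by rw [h1, h3], h4⟩

theorem enc_injective {L : Type u} : Function.Injective (enc : Tr L → _) := by
  intro s t h
  exact (enc_inj s t [] [] (by rw [h])).1

theorem mk_tr_lt {L : Type u} {c : Cardinal.{u}} (hc : ℵ₀ < c) (hL : #L < c) : #(Tr L) < c := by
  refine (mk_le_of_injective enc_injective).trans_lt ((mk_list_le_max _).trans_lt (max_lt hc ?_))
  rw [mk_option, mk_sum]
  refine add_lt_of_lt hc.le (add_lt_of_lt hc.le ?_ ?_) (one_lt_aleph0.trans hc)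
  · simpa using hc
  · simpa using hL

theorem exists_map {L : Type u} {L' : Type v} (f : L → L') : ∀ t : Tr L',
    t.leaves ⊆ range f → ∃ s : Tr L, s.map f = t := by
  intro t
  induction t with
  | nat n => intro _; exact ⟨.nat n, rfl⟩
  | ord a =>
    intro h
    obtain ⟨x, hx⟩ := h (mem_singleton a)
    exact ⟨.ord x, by rw [← hx]; rfl⟩
  | pr s t ih1 ih2 =>
    intro h
    obtain ⟨s', hs⟩ := ih1 (subset_union_left.trans h)
    obtain ⟨t', ht⟩ := ih2 (subset_union_right.trans h)
    exact ⟨.pr s' t', by rw [← hs, ← ht]; rfl⟩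

theorem thm : G_CAD := by
  intro c hc hc0
  have hlim : Order.IsSuccLimit c.ord := Cardinal.isSuccLimit_ord hc0.le
  refine ⟨?_, hlim, ?_⟩
  · intro d hd f hf
    let g : d.ToType → O := fun x => (x.toOrd : O)
    have hg : ∀ t ∈ D (Iio d), ∃ s : Tr d.ToType, s.map g = t := by
      intro t ht
      refine exists_map g t (ht.trans ?_)
      intro x hx
      refine ⟨Ordinal.ToType.mk ⟨x, hx⟩, ?_⟩
      show ((Ordinal.ToType.mk.symm (Ordinal.ToType.mk ⟨x, hx⟩) : Iio d) : O) = x
      rw [OrderIso.symm_apply_apply]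
    have hg' : ∀ s : Tr d.ToType, s.map g ∈ D (Iio d) := by
      intro s
      induction s with
      | nat n => exact nat_mem _ _
      | ord a => exact ord_mem.2 a.toOrd.2
      | pr s t ih1 ih2 => exact pr_mem.2 ⟨ih1, ih2⟩
    have hcard : #(Tr d.ToType) < c := by
      refine mk_tr_lt hc0 ?_
      rw [mk_toType]
      exact lt_ord.1 hd
    have hsup : (⨆ s : Tr d.ToType, f (s.map g)) < c.ord := by
      refine Ordinal.iSup_lt_of_lt_cof ?_ (fun s => hf _ (hg' s))
      rw [hc.cof_ord]
      exact hcard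
    refine ⟨Order.succ (⨆ s : Tr d.ToType, f (s.map g)), hlim.succ_lt hsup, ?_⟩
    intro x hx
    obtain ⟨s, rfl⟩ := hg x hx
    exact Order.lt_succ_of_le (Ordinal.le_iSup.{1, 1} (fun s : Tr d.ToType => f (s.map g)) s)
  · rw [lt_ord, Ordinal.card_omega0]
    exact hc0

end Pool.Agent.Helper17.OD.PkCAD
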