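import Pool.Agent.Helper17.OD.GoalsCV

/-!
MP_064283_lc, project OD of helper17, packet CL1.
-/

set_option autoImplicit false

open Set

namespace Pool.Agent.Helper17.OD.PkCL1

/-- The properties for one mouse. -/
structure C1 (β : O) (M : T) (f : O → O) (m : T) : Prop where
  mono : StrictMonoOn f (Iio (mA m))
  rng : f '' Iio (mA m) = HullM M
  ms : ∃ (a : O) (φ : Code) (u : T) (d : O) (p : T), m = mouse a (Tr.ofCode φ) u d p ∧
    (mQ M).fst = Tr.ofCode φ ∧ d = mD M ∧ d ≤ a ∧ u ∈ D (Iio a) ∧ p ∈ D (Iio a) ∧ a < β ∧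
    p.map f = mP M
  cut : ∀ (ψ : Code), ∀ e ∈ D (Iio (mA m)), (av (mQ M) ψ (e.map f) ↔ av (mQ m) ψ e)
  idd : ∀ x < mD M, f x = x
  snd : ∀ t ∈ D (Iio (mA m)), TCl (mA m) (av (mQ m)) (Iio (mD m) ∪ (mP m).leaves) t
  pj : ∀ t t' : T, PJ m M t t' ↔ t ∈ D (Iio (mA m)) ∧ t' = t.map f

theorem single (hCOL : G_COL) (hCON1 : G_CON1) (hCON3 : G_CON3) (hCON4 : G_CON4) (hCUT : G_CUT)
    (hPJC : G_PJC) (hCLA : G_CLA) (hCLB : G_CLB) (hMAPT : G_MAPT.{2, 2})
    (β : O) (a : O) (φ : Code) (u : T) (d : O) (p₀ : T) (hp₀ : p₀ ∈ D (Iio a)) (hda : d ≤ a)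
    (hotp : ∀ (a' : O) (f : O → O), StrictMonoOn f (Iio a') →
      f '' Iio a' = HullM (mouse a (Tr.ofCode φ) u d p₀) → a' < β) :
    ∃ (f : O → O) (m : T), C1 β (mouse a (Tr.ofCode φ) u d p₀) f m := by
  obtain ⟨M, hM⟩ : ∃ M, M = mouse a (Tr.ofCode φ) u d p₀ := ⟨_, rfl⟩
  obtain ⟨Q, hQ⟩ : ∃ Q : T, Q = .pr (Tr.ofCode φ) u := ⟨_, rfl⟩
  have hH : HullM M = Hull a (av Q) (Iio d ∪ p₀.leaves) := by rw [hM, hQ]; rfl
  obtain ⟨cla1, cla2, cla3⟩ := hCLA a (av Q) (Iio d ∪ p₀.leaves)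
  obtain ⟨a', f, ha', hf, hfH⟩ := hCOL a (Hull a (av Q) (Iio d ∪ p₀.leaves)) cla2
  obtain ⟨m1, m2, m3, m4, m5, m6, m7, m8, m9, m10⟩ := hMAPT O O f (Iio a') hf
  have hidd : ∀ x < d, x < a' ∧ f x = x := by
    intro x
    induction x using WellFoundedLT.induction with
    | _ x ih =>
      intro hx
      have h1 : x ∈ f '' Iio a' := by
        rw [hfH]
        exact cla3 x (Or.inl hx) (hx.trans_le hda)
      obtain ⟨y, hy, hyx⟩ := h1
      have h2 : y ≤ f y := by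
        have h3 : ∀ y < a', y ≤ f y := by
          intro y
          induction y using WellFoundedLT.induction with
          | _ y ih' =>
            intro hy
            by_contra hc
            have hc' : f y < y := not_le.1 hc
            have h4 := hf (hc'.trans hy) hy hc'
            exact absurd (ih' (f y) hc' (hc'.trans hy)) (not_le.2 h4)
        exact h3 y hy
      rcases (h2.trans_eq hyx).eq_or_lt with h3 | h3
      · rw [← h3]
        rw [h3]
        exact ⟨by rw [← h3]; exact hy, by rw [← h3, hyx, h3]⟩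
      · have h4 := (ih y h3 (h3.trans hx)).2
        rw [hyx] at h4
        exact absurd h3 (by rw [h4]; exact lt_irrefl _)
  have hda' : d ≤ a' := by
    by_contra hc
    exact lt_irrefl _ (hidd a' (not_le.1 hc)).1
  obtain ⟨u', hu', hcut, -, -, -⟩ := hCUT a' f (Tr.ofCode φ) u hf
  have hp1 : p₀ ∈ D (f '' Iio a') := by
    intro x hx
    rw [hfH]
    exact cla3 x (Or.inr hx) (hp₀ hx)
  obtain ⟨p, hp, hpp⟩ := (m9 p₀).1 hp1
  have hDH : ∀ t ∈ D (Iio a'), TCl a (av Q) (Iio d ∪ p₀.leaves) (t.map f) := by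
    intro t ht
    rw [cla1, ← hfH]
    exact m10 _ t ht
  have hDH' : ∀ y, TCl a (av Q) (Iio d ∪ p₀.leaves) y → y ∈ D (f '' Iio a') := by
    intro y hy
    rw [hfH]
    exact (cla1 y).1 hy
  have hfa : ∀ x < a', f x < a := by
    intro x hx
    have h1 : f x ∈ Hull a (av Q) (Iio d ∪ p₀.leaves) := by
      rw [← hfH]
      exact ⟨x, hx, rfl⟩
    exact cla2 h1
  have hin : ∀ b < a', ∀ e ∈ D (Iio b), ∀ (ψ : Code) (y : T), IsW (f b) ψ (e.map f) y →
      y ∈ D (f '' Iio a') := by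
    intro b hb e he ψ y hy
    apply hDH'
    have he' : e ∈ D (Iio a') := D_mono (Iio_subset_Iio hb.le) he
    refine TCl.inner (hDH (.ord b) (ord_mem.2 hb)) (hfa b hb) (hDH e he') ?_ hy
    have h1 : (e.map f).leaves ⊆ f '' Iio b := m10 (Iio b) e he
    refine h1.trans (image_subset_iff.2 fun x hx => ?_)
    exact hf (lt_trans hx hb) hb hx
  have htop : ∀ e ∈ D (Iio a'), ∀ (ψ : Code) (y : T), av Q ψ (e.map f) →
      IsW a ψ (e.map f) y → y ∈ D (f '' Iio a') := by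
    intro e he ψ y hav hy
    exact hDH' y (TCl.top (hDH e he) hav hy)
  have hsnd : ∀ t ∈ D (Iio a'), TCl a' (av (.pr (Tr.ofCode φ) u')) (Iio d ∪ p.leaves) t := by
    intro t ht
    have hA : f '' (Iio d ∪ p.leaves) = Iio d ∪ p₀.leaves := by
      rw [image_union, ← m1, hpp]
      congr 1
      ext x
      constructor
      · rintro ⟨y, hy, rfl⟩
        rw [(hidd y hy).2]
        exact hy
      · intro hx
        exact ⟨x, hx, (hidd x hx).2⟩
    have hsub : Iio d ∪ p.leaves ⊆ Iio a' := union_subset (Iio_subset_Iio hda') hp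
    have h1 := hCON4 a a' f Q (Iio d ∪ p₀.leaves) hf hfH (Iio d ∪ p.leaves) hsub (t.map f)
    rw [hA] at h1
    obtain ⟨s, hs, hst, hs'⟩ := h1.1 (hDH t ht)
    have h2 : s = t := m3 s hs t ht hst
    rw [h2] at hs'
    refine hCLB a' _ _ _ _ ?_ ?_ t hs'
    · intro ψ e he hav
      rw [hQ] at hav
      exact (hcut ψ e he).1 hav
    · intro x hx hxa
      exact TCl.base hx hxa
  have hm : ∃ m, m = mouse a' (Tr.ofCode φ) u' d p := ⟨_, rfl⟩
  obtain ⟨m, hm⟩ := hm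
  have e1 : mA m = a' := by rw [hm]; rfl
  have e2 : mQ m = .pr (Tr.ofCode φ) u' := by rw [hm]; rfl
  have e3 : mD m = d := by rw [hm]; rfl
  have e4 : mP m = p := by rw [hm]; rfl
  have g1 : mA M = a := by rw [hM]; rfl
  have g2 : mQ M = Q := by rw [hM, hQ]; rfl
  have g3 : mD M = d := by rw [hM]; rfl
  have g4 : mP M = p₀ := by rw [hM]; rfl
  have g5 : M.fst.IsOrd := by rw [hM]; trivial
  have e5 : m.fst.IsOrd := by rw [hm]; trivial
  rw [← hM]
  refine ⟨f, m, ?_⟩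
  have hlast : ∀ (ψ : Code), ∀ e ∈ D (Iio a'), (av Q ψ (e.map f) ↔
      av (.pr (Tr.ofCode φ) u') ψ e) := by
    intro ψ e he
    rw [hQ]
    exact hcut ψ e he
  constructor
  · rw [e1]; exact hf
  · rw [e1, hH]; exact hfH
  · refine ⟨a', φ, u', d, p, hm, ?_, g3.symm, hda', hu', hp, ?_, ?_⟩
    · rw [g2, hQ]; rfl
    · refine hotp a' f hf ?_
      rw [← hM, hH]
      exact hfH
    · rw [g4]; exact hpp
  · rw [e1, e2, g2]
    exact hlast
  · rw [g3]
    exact fun x hx => (hidd x hx).2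
  · rw [e1, e2, e3, e4]
    exact hsnd
  · have h := hPJC m M f e5 g5 (by rw [e3, e1]; exact hda') (by rw [e4, e1]; exact hp)
      (by rw [e1, e2, e3, e4]; exact hsnd) (by rw [e1]; exact hf)
      (by rw [e1, g1]; exact hfa) (by rw [e3]; exact fun x hx => (hidd x hx).2)
      (by rw [e4, g4]; exact hpp)
      (by rw [e1]; exact (hCON1 a' f hf hin).2)
      (by
        rw [e1, e2, g1, g2]
        intro e he x hx ψ hav
        have hav' := (hlast ψ e he).2 hav
        exact ⟨hav', hCON3 a' a f Q hf hfa hin htop ψ e he x hx hav'⟩)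
    exact h

theorem thm (hCOL : G_COL) (hCON1 : G_CON1) (hCON3 : G_CON3) (hCON4 : G_CON4) (hCUT : G_CUT)
    (hPJC : G_PJC) (hCLA : G_CLA) (hCLB : G_CLB) (hMAPT : G_MAPT.{2, 2}) : G_CL1 := by
  intro k β I p₀ d₀ hI
  have h : ∀ M ∈ I, ∃ (f : O → O) (m : T), C1 β M f m := by
    intro M hM
    obtain ⟨a, φ, u, d, hMM, hp, hu, hd, hdβ, hda⟩ := hI.mice M hM
    rw [hMM]
    exact single hCOL hCON1 hCON3 hCON4 hCUT hPJC hCLA hCLB hMAPT β a φ u d p₀ hp hda
      (fun a' f hf hfH => hI.otp M hM a' f hf (by rw [hfH, hMM]))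
  choose! f m hfm using h
  exact ⟨f, m, fun M hM => (hfm M hM).mono, fun M hM => (hfm M hM).rng,
    fun M hM => (hfm M hM).ms, fun M hM => (hfm M hM).cut, fun M hM => (hfm M hM).idd,
    fun M hM => (hfm M hM).snd, fun M hM => (hfm M hM).pj⟩

end Pool.Agent.Helper17.OD.PkCL1
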