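import Pool.Agent.Helper17.OD.GoalsMA

/-!
MP_064283_lc, project OD of helper17, packet CON2.
-/

set_option autoImplicit false

open Set

namespace Pool.Agent.Helper17.OD.PkCON2

theorem thm (hC1 : G_CON1) (hM : G_MAPT.{2, 2}) (hV : G_TVM.{2, 2}) (hL : G_LTO.{2})
    (hW : G_LTW.{2}) (hH : G_HLE.{2}) : G_CON2 := by
  intro a a' f φ hf hfa hb htop
  obtain ⟨m1, m2, m3, m4, m5, m6, m7, m8, m9, m10⟩ := hM O O f (Iio a) hf
  obtain ⟨l1, l2, l3⟩ := hL O
  obtain ⟨-, -, -, g4, -, -, -⟩ := hH O
  have hlow := (hC1 a f hf hb).1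
  have mapD : ∀ t ∈ D (Iio a), t.map f ∈ D (Iio a') := by
    intro t ht
    have h1 : (t.map f).leaves ⊆ f '' Iio a := m10 (Iio a) t ht
    exact h1.trans (image_subset_iff.2 (fun x hx => hfa x hx))
  have tv : ∀ c, ∀ e ∈ D (Iio a), tval c e ∈ D (Iio a) := fun c e he => (hV O O f c e).2.trans he
  have tm : ∀ c e, tval c (e.map f) = (tval c e).map f := fun c e => (hV O O f c e).1
  have sub : ∀ (c d : Code), (Tr.ofCode c : T).lt (Tr.ofCode d) →
      (Tr.ofCode d = φ ∨ (Tr.ofCode d).lt φ) → (Tr.ofCode c : T).lt φ := by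
    intro c d h1 h2
    rcases h2 with h2 | h2
    · rw [← h2]; exact h1
    · exact l2 _ _ _ h1 h2
  have ofpr : ∀ c d : Code, (Tr.ofCode (.pr c d) : T) = .pr (Tr.ofCode c) (Tr.ofCode d) :=
    fun _ _ => rfl
  have key : ∀ (c : Code) (e : T), e ∈ D (Iio a) → (Tr.ofCode c = φ ∨ (Tr.ofCode c).lt φ) →
      (stp a (fun b c e => b < a ∧ Tru b c e) c e ↔
        stp a' (fun b c e => b < a' ∧ Tru b c e) c (e.map f)) := by
    intro c e
    induction c, e using stp.induct with
    | case1 s t e =>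
      intro he _
      show tval s e = tval t e ↔ tval s (e.map f) = tval t (e.map f)
      rw [tm, tm]
      exact ⟨fun h => by rw [h], fun h => m3 _ (tv s e he) _ (tv t e he) h⟩
    | case2 s t e =>
      intro he _
      show (tval s e).lt (tval t e) ↔ (tval s (e.map f)).lt (tval t (e.map f))
      rw [tm, tm]
      exact (m4 _ (tv s e he) _ (tv t e he)).symm
    | case3 s e =>
      intro he _
      show (tval s e).IsOrd ↔ (tval s (e.map f)).IsOrd
      rw [tm]
      exact (m5 _).symm
    | case4 s t e =>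
      intro he _
      show (tval s e).lmem (tval t e) ↔ (tval s (e.map f)).lmem (tval t (e.map f))
      rw [tm, tm]
      exact (m6 _ (tv s e he) _ (tv t e he)).symm
    | case5 s u v e =>
      intro he _
      show (∃ (b : O) (c : Code), tval s e = .ord b ∧ b < a ∧
        tval u e = Tr.ofCode c ∧ tval v e ∈ D (Iio b) ∧ (b < a ∧ Tru b c (tval v e))) ↔
        (∃ (b : O) (c : Code), tval s (e.map f) = .ord b ∧ b < a' ∧
        tval u (e.map f) = Tr.ofCode c ∧ tval v (e.map f) ∈ D (Iio b) ∧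
          (b < a' ∧ Tru b c (tval v (e.map f))))
      rw [tm, tm, tm]
      constructor
      · rintro ⟨b, c, h1, h2, h3, h4, -, h5⟩
        refine ⟨f b, c, ?_, hfa b h2, ?_, ?_, hfa b h2, ?_⟩
        · rw [h1]; rfl
        · rw [h3]; exact m7 c
        · have h6 : ((tval v e).map f).leaves ⊆ f '' Iio b := m10 (Iio b) _ h4
          refine h6.trans (image_subset_iff.2 (fun x hx => ?_))
          exact hf (lt_trans hx h2) h2 hx
        · exact (hlow b h2 _ h4 c).1 h5
      · rintro ⟨b', c, h1, h2, h3, h4, -, h5⟩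
        have h6 : ∃ b, tval s e = .ord b ∧ f b = b' := by
          cases hs : tval s e with
          | nat n => rw [hs] at h1; exact absurd h1 (by simp [Tr.map])
          | ord b =>
            rw [hs] at h1
            refine ⟨b, rfl, ?_⟩
            simpa [Tr.map] using h1
          | pr x y => rw [hs] at h1; exact absurd h1 (by simp [Tr.map])
        obtain ⟨b, hb1, rfl⟩ := h6
        have hba : b < a := by
          have h7 : (tval s e).leaves ⊆ Iio a := tv s e he
          rw [hb1] at h7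
          exact h7 (mem_singleton b)
        have h8 : tval v e ∈ D (Iio b) := by
          intro x hx
          have h9 : f x ∈ ((tval v e).map f).leaves := by
            rw [m1]; exact mem_image_of_mem f hx
          exact (hf.lt_iff_lt (tv v e he hx) hba).1 (h4 h9)
        exact ⟨b, c, hb1, hba, (m8 _ c).1 h3, h8, hba, (hlow b hba _ h8 c).2 h5⟩
    | case6 φ' ψ' e ih1 ih2 =>
      intro he hc
      show (¬ (stp a (fun b c e => b < a ∧ Tru b c e) φ' e ∧
        stp a (fun b c e => b < a ∧ Tru b c e) ψ' e)) ↔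
        (¬ (stp a' (fun b c e => b < a' ∧ Tru b c e) φ' (e.map f) ∧
        stp a' (fun b c e => b < a' ∧ Tru b c e) ψ' (e.map f)))
      have h1 : (Tr.ofCode φ' : T).lt (Tr.ofCode (.pr (.nat 5) (.pr φ' ψ'))) := by
        rw [ofpr, ofpr]
        exact l2 _ _ _ (g4 _ _).1 (g4 _ _).2
      have h2 : (Tr.ofCode ψ' : T).lt (Tr.ofCode (.pr (.nat 5) (.pr φ' ψ'))) := by
        rw [ofpr, ofpr]
        exact l2 _ _ _ (g4 _ _).2 (g4 _ _).2
      rw [ih1 he (Or.inr (sub _ _ h1 hc)), ih2 he (Or.inr (sub _ _ h2 hc))]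
    | case7 φ' e ih =>
      intro he hc
      have h1 : (Tr.ofCode φ' : T).lt (Tr.ofCode (.pr (.nat 6) φ')) := by
        rw [ofpr]
        exact (g4 _ _).2
      have h2 := sub _ _ h1 hc
      show (∃ x ∈ D (Iio a), stp a (fun b c e => b < a ∧ Tru b c e) φ' (.pr x e)) ↔
        (∃ x ∈ D (Iio a'), stp a' (fun b c e => b < a' ∧ Tru b c e) φ' (.pr x (e.map f)))
      constructor
      · rintro ⟨x, hx, h⟩
        refine ⟨x.map f, mapD x hx, ?_⟩
        exact (ih x (union_subset hx he) (Or.inr h2)).1 h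
      · rintro ⟨y, hy, h⟩
        obtain ⟨z, ⟨hz1, hz2⟩, hz3⟩ := (hW O).has_min
          {z | z ∈ D (Iio a') ∧ stp a' (fun b c e => b < a' ∧ Tru b c e) φ' (.pr z (e.map f))}
          ⟨y, hy, h⟩
        have h3 : IsW a' φ' (e.map f) z := by
          refine ⟨hz1, ?_, ?_⟩
          · rw [tru_eq]; exact hz2
          · intro y' hy' h'
            rw [tru_eq] at h'
            exact hz3 y' ⟨hy', h'⟩
        obtain ⟨x, hx, rfl⟩ := (m9 z).1 (htop e he φ' z h2 h3)
        exact ⟨x, hx, (ih x (union_subset hx he) (Or.inr h2)).2 hz2⟩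
    | case8 t x h0 h1 h2 h3 h4 h5 h6 =>
      intro _ _
      rw [stp, stp]
      all_goals assumption
  intro c hc e he
  rw [tru_eq, tru_eq]
  exact key c e he hc

end Pool.Agent.Helper17.OD.PkCON2
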