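import Pool.Agent.Helper17.OD.GoalsSO

/-!
MP_064283_lc, project OD of helper17, packet ENU.
-/

set_option autoImplicit false

open Set

namespace Pool.Agent.Helper17.OD.PkENU

/-- The ordinal of a leaf. -/
noncomputable def val : T → O
  | .ord a => a
  | _ => 0

theorem ord_val {t : T} (h : t.IsOrd) : t = .ord (val t) := by
  cases t with
  | nat n => exact h.elim
  | ord a => rfl
  | pr s t => exact h.elim

theorem llt_iff {s t : T} (hs : s.IsOrd) (ht : t.IsOrd) : s.llt t ↔ val s < val t := by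
  rw [ord_val hs, ord_val ht]
  exact Iff.rfl

theorem thm (hR : G_RNK) : G_ENU := by
  intro k S S' h Y hY hYo
  have := h
  obtain ⟨d, hd, hYd⟩ := h.bdd Y (h.sub hY)
  let R : Set T := {p | p.fst ∈ Y ∧ p.snd ∈ Y ∧ p = .pr p.fst p.snd ∧ p.fst.llt p.snd}
  have memR : ∀ x y : T, Tr.pr x y ∈ R ↔ x ∈ Y ∧ y ∈ Y ∧ x.llt y := by
    intro x y
    exact ⟨fun h => ⟨h.1, h.2.1, h.2.2.2⟩, fun h => ⟨h.1, h.2.1, rfl, h.2.2⟩⟩
  have hRS : R ∈ S' := by
    apply SOM.of_SD (S := S) (k := k) hd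
    · rintro p ⟨h1, h2, h3, -⟩
      rw [h3]
      exact pr_mem.2 ⟨hYd h1, hYd h2⟩
    · show SD k S S' (fun e _ => e.fst ∈ Y ∧ e.snd ∈ Y ∧ e = .pr e.fst e.snd ∧ e.fst.llt e.snd)
      apply_rules [SD.and, SD.mem, SD.eq, SD.llt, ST.id, ST.fst, ST.snd, ST.pr, SV.par]
  have hwf : WellFounded (fun x y : T => Tr.pr x y ∈ R) := by
    refine Subrelation.wf (r := InvImage (· < ·) val) ?_ (InvImage.wf val wellFounded_lt)
    intro x y hxy
    have h1 := (memR x y).1 hxy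
    exact (llt_iff (hYo x h1.1) (hYo y h1.2.1)).1 h1.2.2
  obtain ⟨-, ρ, b, hb, hρb, hρ, -, hgr⟩ := hR k S S' h R hRS (by
    intro Z _ hZn
    obtain ⟨m, hm, hmin⟩ := hwf.has_min Z hZn
    exact ⟨m, hm, fun z hz => hmin z hz⟩)
  have mono : ∀ x ∈ Y, ∀ y ∈ Y, val x < val y → ρ x < ρ y := by
    intro x hx y hy hxy
    exact (hρ y (ρ x)).2 ⟨x, (memR x y).2 ⟨hx, hy, (llt_iff (hYo x hx) (hYo y hy)).2 hxy⟩, le_rfl⟩
  have inj : ∀ x ∈ Y, ∀ y ∈ Y, ρ x = ρ y → x = y := by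
    intro x hx y hy hxy
    rcases lt_trichotomy (val x) (val y) with h1 | h1 | h1
    · exact absurd hxy (mono x hx y hy h1).ne
    · rw [ord_val (hYo x hx), ord_val (hYo y hy), h1]
    · exact absurd hxy (mono y hy x hx h1).ne'
  have down : ∀ x, x ∈ Y → ∀ a < ρ x, ∃ y ∈ Y, ρ y = a := by
    intro x
    induction x using hwf.induction with
    | _ x ih =>
      intro hx a ha
      obtain ⟨y, hyR, hay⟩ := (hρ x a).1 ha
      have hyY := ((memR y x).1 hyR).1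
      rcases hay.eq_or_lt with h1 | h1
      · exact ⟨y, hyY, h1.symm⟩
      · exact ih y hyR hyY a h1
  have hne : {a | ∀ y ∈ Y, ρ y ≠ a}.Nonempty := ⟨b, fun y _ => (hρb y).ne⟩
  obtain ⟨b', hb'⟩ : ∃ b', b' = sInf {a | ∀ y ∈ Y, ρ y ≠ a} := ⟨_, rfl⟩
  have hb1 : ∀ y ∈ Y, ρ y ≠ b' := by
    rw [hb']
    exact csInf_mem hne
  have hb2 : ∀ a < b', ∃ y ∈ Y, ρ y = a := by
    intro a ha
    rw [hb'] at ha
    have h1 := notMem_of_lt_csInf' ha
    by_contra hc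
    push Not at hc
    exact h1 hc
  have hb3 : ∀ y ∈ Y, ρ y < b' := by
    intro y hy
    by_contra hc
    rcases (not_lt.1 hc).eq_or_lt with h1 | h1
    · exact hb1 y hy h1.symm
    · obtain ⟨y', hy', h2⟩ := down y hy b' h1
      exact hb1 y' hy' h2
  have hb4 : b' ≤ b := by
    rw [hb']
    exact csInf_le' (fun y _ => (hρb y).ne)
  have hex : ∀ a, a < b' → ∃ x : O, Tr.ord x ∈ Y ∧ ρ (.ord x) = a := by
    intro a ha
    obtain ⟨y, hy, hya⟩ := hb2 a ha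
    refine ⟨val y, ?_, ?_⟩
    · rw [← ord_val (hYo y hy)]; exact hy
    · rw [← ord_val (hYo y hy)]; exact hya
  choose! f hf1 hf2 using hex
  have hb'k : b' < k := hb4.trans_lt hb
  refine ⟨b', f, hb'k, ?_, ?_, ?_⟩
  · intro a ha a' ha' haa
    by_contra hc
    rcases (not_lt.1 hc).eq_or_lt with h1 | h1
    · have h2 := hf2 a' ha'
      rw [h1, hf2 a ha] at h2
      exact haa.ne h2
    · have h2 := mono _ (hf1 a' ha') _ (hf1 a ha) h1
      rw [hf2 a ha, hf2 a' ha'] at h2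
      exact lt_asymm haa h2
  · intro t
    constructor
    · intro ht
      refine ⟨ρ t, hb3 t ht, ?_⟩
      exact inj t ht _ (hf1 _ (hb3 t ht)) (hf2 _ (hb3 t ht)).symm
    · rintro ⟨a, ha, rfl⟩
      exact hf1 a ha
  · have hG := hgr d hd
    have hmax : max b' d < k := max_lt hb'k hd
    apply SOM.of_SD (S := S) (k := k) hmax
    · rintro p ⟨a, ha, rfl⟩
      refine pr_mem.2 ⟨ord_mem.2 (lt_of_lt_of_le ha (le_max_left _ _)), ?_⟩
      exact D_mono (Iio_subset_Iio (le_max_right _ _)) (hYd (hf1 a ha))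
    · have h1 : SD k S S' (fun e _ => e.snd ∈ Y ∧
          Tr.pr e.snd e.fst ∈ gr (D (Iio d)) (fun x => .ord (ρ x)) ∧ e = .pr e.fst e.snd) := by
        apply_rules [SD.and, SD.mem, SD.eq, SD.llt, ST.id, ST.fst, ST.snd, ST.pr, SV.par]
      refine h1.congr fun e _ _ _ => ?_
      constructor
      · rintro ⟨h2, ⟨x, _, h3⟩, h4⟩
        injection h3 with h5 h6
        refine ⟨ρ e.snd, hb3 _ h2, ?_⟩
        rw [h4]
        show Tr.pr e.fst e.snd = _
        rw [h6, ← h5]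
        congr 1
        exact inj _ h2 _ (hf1 _ (hb3 _ h2)) (hf2 _ (hb3 _ h2)).symm
      · rintro ⟨a, ha, rfl⟩
        refine ⟨hf1 a ha, ⟨.ord (f a), hYd (hf1 a ha), ?_⟩, rfl⟩
        show Tr.pr (.ord (f a)) (.ord a) = .pr (.ord (f a)) (.ord (ρ (.ord (f a))))
        rw [hf2 a ha]

end Pool.Agent.Helper17.OD.PkENU
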