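import Pool.Agent.Helper17.OD.GoalsFP

/-!
MP_064283_lc, project OD of helper17, packet LMT.
-/

set_option autoImplicit false

open Set

namespace Pool.Agent.Helper17.OD.PkLMT

theorem thm (hB : G_BLD) (hU : G_PUN) (hP : G_PBD) (hO : G_PRO) (hN : G_LNS) (hD : G_DEC) :
    G_LMT := by
  intro F l q hl hlκ hq hqP hdec hlen hsup hthin
  obtain ⟨hU1, hU2⟩ := hU F
  obtain ⟨hP1, hP2, hP3, hP4, hP5, hP6, hP7, hP8⟩ := hP F
  obtain ⟨hO1, hO2, hO3, hO4, hO5⟩ := hO F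
  have hM : SOM F.γ F.M F.M := F.g.m1
  have hκγ : F.κ < F.γ := F.g.kg
  have hqD : ∀ x < l, Tr.pr (.ord x) (q x) ∈ D (Iio F.γ) := by
    intro x hx
    exact pr_mem.2 ⟨ord_mem.2 (hx.trans (hlκ.trans hκγ)),
      D_mono (Iio_subset_Iio hκγ.le) (hP2 _ (hqP x hx))⟩
  have hL1 : ∀ i < F.κ, ∀ x < l, ln (q x) i ≤ limL q l i := by
    intro i hi x hx
    obtain ⟨a, -, ha⟩ := hlen i hi
    exact csInf_mem (s := {a | ∀ x < l, ln (q x) i ≤ a}) ⟨a, ha⟩ x hx
  have hL2 : ∀ i z, z < limL q l i → ∃ x < l, z < ln (q x) i := by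
    intro i z hz
    have h1 := notMem_of_lt_csInf' hz
    by_contra hc
    push Not at hc
    exact h1 hc
  have hL3 : ∀ i z, (∃ x < l, z < ln (q x) i) →
      ∃ x < l, z < ln (q x) i ∧ ∀ y < x, ¬ z < ln (q y) i := by
    intro i z hz
    obtain ⟨x, ⟨hx1, hx2⟩, hx3⟩ := (wellFounded_lt (α := O)).has_min
      {x | x < l ∧ z < ln (q x) i} hz
    exact ⟨x, hx1, hx2, fun y hy hc => hx3 y ⟨hy.trans hx1, hc⟩ hy⟩
  have hN1 : ∀ i z x, x < l → z < ln (q x) i → (∀ y < x, ¬ z < ln (q y) i) →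
      limN q l i z = nm (q x) i z := by
    intro i z x hx h1 h2
    ext s
    constructor
    · rintro ⟨x', hx', h3, h4, h5⟩
      have h6 : x' = x := by
        rcases lt_trichotomy x' x with h | h | h
        · exact absurd h3 (h2 _ h)
        · exact h
        · exact absurd h1 (h4 _ h)
      rw [← h6]
      exact h5
    · intro h
      exact ⟨x, hx, h1, h2, h⟩
  -- the set is in `M`
  have hZ : {z : T | ∃ i < F.κ, i < F.κ ∧ ∃ x < limL q l i,
      z = .pr (.ord i) (.pr (.nat 0) (.ord x)) ∨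
      ∃ s ∈ limN q l i x, z = .pr (.ord i) (.pr (.nat 1) (.pr (.ord x) s))} ∈ F.M := by
    refine SOM.of_SD (h := hM) hκγ ?_ ?_
    · rintro z ⟨i, hi, -, x, hx, h⟩
      obtain ⟨y, hy, hxy⟩ := hL2 i x hx
      have hc := (hU2 _ _).1 (hqP y hy)
      have hxκ : x < F.κ := (hxy.trans (hc.len i hi hi)).trans (F.e.lt i hi)
      rcases h with rfl | ⟨s, hs, rfl⟩
      · exact pr_mem.2 ⟨ord_mem.2 hi, pr_mem.2 ⟨nat_mem _ _, ord_mem.2 hxκ⟩⟩
      · obtain ⟨y', hy', h1, -, h3⟩ := hs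
        have hc' := (hU2 _ _).1 (hqP y' hy')
        exact pr_mem.2 ⟨ord_mem.2 hi, pr_mem.2 ⟨nat_mem _ _, pr_mem.2 ⟨ord_mem.2 hxκ,
          hP2 i ((hc'.ro i hi hi x h1).1 h3)⟩⟩⟩
    · have hd := (hD F.γ F.M F.M hM).1
      have hn := hN F.γ F.M F.M hM
      have h1 : SD F.γ F.M F.M (fun e _ => ∃ u ∈ D (Iio F.γ), u ∈ grt l q ∧ e ∈ dec u.snd ∧
          (e.snd.fst = .nat 0 ∨ (e.snd.fst = .nat 1 ∧ ∀ v ∈ D (Iio F.γ), v ∈ grt l q →
            v.fst.llt u.fst → ¬ LnT v.snd e.fst e.snd.snd.fst))) := by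
        apply_rules (maxDepth := 400) [SD.exT, SD.allT, SD.llt, SD.mem, SD.eq,
          SD.not, SD.and, SD.or, SD.imp, ST.id, ST.fst, ST.snd, ST.pr, ST.nat, SV.par,
          SD.app2 (R := fun a b => a ∈ dec b) hd, SD.app3 (R := LnT) hn]
      refine h1.congr fun e he _ _ => ?_
      constructor
      · rintro ⟨u, hu, ⟨y, hy, rfl⟩, h2, h3⟩
        change e ∈ dec (q y) at h2
        rw [hP8 _ _ (hqP y hy)] at h2
        obtain ⟨i, hi, -, x, hx, h4⟩ := h2
        have hxL : x < limL q l i := hx.trans_le (hL1 i hi y hy)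
        refine ⟨i, hi, hi, x, hxL, ?_⟩
        rcases h4 with rfl | ⟨s, hs, rfl⟩
        · exact Or.inl rfl
        · refine Or.inr ⟨s, ?_, rfl⟩
          have h5 : ∀ y' < y, ¬ x < ln (q y') i := by
            intro y' hy' hc
            rcases h3 with h3 | ⟨-, h3⟩
            · exact absurd h3 (by simp [Tr.fst, Tr.snd])
            · exact h3 _ (hqD y' (hy'.trans hy)) ⟨y', hy'.trans hy, rfl⟩ hy' ⟨i, x, rfl, rfl, hc⟩
          exact ⟨y, hy, hx, h5, hs⟩
      · rintro ⟨i, hi, -, x, hx, h2⟩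
        rcases h2 with rfl | ⟨s, ⟨y, hy, h3, h4, h5⟩, rfl⟩
        · obtain ⟨y, hy, hxy⟩ := hL2 i x hx
          refine ⟨_, hqD y hy, ⟨y, hy, rfl⟩, ?_, Or.inl rfl⟩
          show _ ∈ dec (q y)
          rw [hP8 _ _ (hqP y hy)]
          exact ⟨i, hi, hi, x, hxy, Or.inl rfl⟩
        · refine ⟨_, hqD y hy, ⟨y, hy, rfl⟩, h5, Or.inr ⟨rfl, ?_⟩⟩
          rintro v hv ⟨y', hy', rfl⟩ h6 ⟨i', x', h7, h8, h9⟩
          have h7' : i = i' := by
            have := h7; simpa [Tr.fst] using this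
          have h8' : x = x' := by
            have := h8; simpa [Tr.fst, Tr.snd] using this
          subst h7' h8'
          exact h4 y' h6 h9
  obtain ⟨p, hp, hp1⟩ := hB F F.κ le_rfl (limL q l) (limN q l) hZ
    (by
      obtain ⟨d, hd, hd'⟩ := hsup
      refine ⟨d, hd, fun i _ hi => ?_⟩
      have h1 : limL q l i ≤ 0 := csInf_le' (fun x hx => (hd' x hx i hi).le)
      exact le_antisymm h1 zero_le)
    (by
      intro i hi _
      obtain ⟨a, ha, ha'⟩ := hlen i hi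
      exact lt_of_le_of_lt (csInf_le' ha') ha)
    (by
      intro i hi _ x hx
      obtain ⟨y, hy, h1, h2⟩ := hL3 i x (hL2 i x hx)
      rw [hN1 i x y hy h1 h2]
      exact ((hU2 _ _).1 (hqP y hy)).ro i hi hi x h1)
    (fun i hi _ => hthin i hi)
  refine ⟨p, hp, ?_, ?_⟩
  · have key : ∀ j ≤ F.κ, ∀ x < l, F.Le j p (q x) := by
      intro j
      induction j using WellFoundedLT.induction with
      | _ j ih =>
        intro hj x hx
        rw [hU1]
        intro i hi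
        have hiκ : i < F.κ := hi.trans_le hj
        obtain ⟨h1, h2⟩ := hp1 i hiκ hiκ
        refine ⟨by rw [h1]; exact hL1 i hiκ x hx, fun z hz r hr hrp => ?_⟩
        rw [h2 z (hz.trans_le (hL1 i hiκ x hx))]
        obtain ⟨y, hy, h3, h4⟩ := hL3 i z ⟨x, hx, hz⟩
        rw [hN1 i z y hy h3 h4]
        rcases lt_trichotomy y x with h5 | h5 | h5
        · have h6 := (hU1 _ _ _).1 (hdec y x h5 hx) i hiκ
          exact (h6.2 z h3 r hr (hO2 _ _ _ _ hrp (ih i hi hiκ.le x hx))).symm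
        · rw [h5]
        · exact absurd hz (h4 x h5)
    exact key F.κ le_rfl
  · intro i hi
    obtain ⟨h1, h2⟩ := hp1 i hi hi
    exact ⟨h1, fun z hz => h2 z (by rw [← h1]; exact hz)⟩

end Pool.Agent.Helper17.OD.PkLMT
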