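import Pool.Agent.Helper17.OD.GoalsSO

/-!
MP_064283_lc, project OD of helper17, packet LST.
-/

set_option autoImplicit false

open Set

namespace Pool.Agent.Helper17.OD.PkLST

open Classical in
theorem thm (hT : G_TRE) (hL : G_LTO.{2}) (hW : G_LTW.{2}) : G_LST := by
  intro k S S' h P hP
  have := h
  obtain ⟨-, hlt, -⟩ := hT k S S' h
  obtain ⟨-, -, tri⟩ := hL O
  have hwf : WellFounded (Tr.lt : T → T → Prop) := hW O
  have hex : ∀ x, ∃ z : T, ((∃ y ∈ D (Iio k), P x y) → z ∈ D (Iio k) ∧ P x z ∧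
      ∀ y ∈ D (Iio k), P x y → ¬ y.lt z) ∧ ((¬ ∃ y ∈ D (Iio k), P x y) → z = .nat 0) := by
    intro x
    by_cases hx : ∃ y ∈ D (Iio k), P x y
    · obtain ⟨y, hy, hPy⟩ := hx
      obtain ⟨z, ⟨hz1, hz2⟩, hz3⟩ := hwf.has_min {y | y ∈ D (Iio k) ∧ P x y} ⟨y, hy, hPy⟩
      exact ⟨z, fun _ => ⟨hz1, hz2, fun w hw hPw => hz3 w ⟨hw, hPw⟩⟩,
        fun hc => absurd ⟨y, hy, hPy⟩ hc⟩
    · exact ⟨.nat 0, fun hc => absurd hc hx, fun _ => rfl⟩
  choose g hg1 hg2 using hex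
  refine ⟨g, fun x _ hx => hg1 x hx, fun x hx => hg2 x hx, ?_⟩
  have h1 : SD k S S' (fun e _ => (P e.fst e.snd ∧
      ∀ y ∈ D (Iio k), P e.fst y → ¬ y.lt e.snd) ∨
      ((¬ ∃ y ∈ D (Iio k), P e.fst y) ∧ e.snd = .nat 0)) := by
    apply_rules [SD.exT, SD.allT, SD.not, SD.and, SD.or, SD.imp, SD.eq, ST.id, ST.fst, ST.snd,
      ST.nat, SD.app2 hP, SD.app2 hlt]
  refine h1.congr fun e he _ _ => ?_
  constructor
  · rintro (⟨h2, h3⟩ | ⟨h2, h3⟩)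
    · have hs : e.snd ∈ D (Iio k) := snd_mem he
      obtain ⟨g1, g2, g3⟩ := hg1 e.fst ⟨e.snd, hs, h2⟩
      rcases tri (g e.fst) e.snd with h4 | h4 | h4
      · exact absurd h4 (h3 _ g1 g2)
      · exact h4
      · exact absurd h4 (g3 _ hs h2)
    · rw [hg2 _ h2, h3]
  · intro h2
    rw [← h2]
    by_cases hx : ∃ y ∈ D (Iio k), P e.fst y
    · left
      exact (hg1 e.fst hx).2
    · right
      exact ⟨hx, hg2 _ hx⟩

end Pool.Agent.Helper17.OD.PkLST
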