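import Pool.Agent.Helper17.OD.GoalsGE

/-!
MP_064283_lc, project OD of helper17, packet NMB.
-/

set_option autoImplicit false

open Set

namespace Pool.Agent.Helper17.OD.PkNMB

theorem thm (hCNC : G_CNC) (hKSM : G_KSM) (hPBD : G_PBD) (hSOB : G_SOB) : G_NMB := by
  intro F G hG
  obtain ⟨hP1, hP2, hP3, hP4, hP5, hP6, hP7, hP8⟩ := hPBD F
  obtain ⟨hC1, hC2, hC3, hC4, hC5, hC6, hC7⟩ := hCNC
  obtain ⟨hK1, hK2, hK3, hK4⟩ := hKSM F.w F.κ F.γ F.g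
  have hM : SOM F.γ F.M F.M := F.g.m1
  have h1 : ∀ τ ∈ F.M, (∃ i < F.κ, ∀ z ∈ τ, ∃ y, ∃ p ∈ F.P i, z = Tr.pr y p) →
      (∃ μ < F.κ, ∀ z ∈ τ, z.fst ∈ D (Iio μ)) → evl G τ ∈ SG F G := by
    rintro τ hτ ⟨i, hi, hi'⟩ ⟨μ, hμ, hμ'⟩
    obtain ⟨r, hr, hr'⟩ := hP1 i hi
    have hrκ : r < F.κ := hr.trans (F.e.lt i hi)
    have h2 : τ ⊆ D (Iio (max μ r)) := by
      intro z hz
      obtain ⟨y, p, hp, rfl⟩ := hi' z hz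
      exact pr_mem.2 ⟨D_mono (Iio_subset_Iio (le_max_left _ _)) (hμ' _ hz),
        D_mono (Iio_subset_Iio (le_max_right _ _)) (hr' hp)⟩
    obtain ⟨c, hc, hcτ⟩ := F.g.m2 τ hτ _ (max_lt hμ hrκ) h2
    obtain ⟨h3, h4⟩ := hC1 τ ⟨c, hcτ.symm⟩
    refine ⟨canon τ, ⟨hC3 τ _ ⟨c, hc, hcτ.symm⟩, h4, i, hi, ?_⟩, by rw [h3]⟩
    rw [h3]
    exact hi'
  refine ⟨h1, ?_, ?_, ?_⟩
  · intro X hX
    obtain ⟨hXM, d, hd, hXd⟩ := (hK2 X).1 hX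
    obtain ⟨p, hp⟩ := hG.ne
    have hpP := hG.sub hp
    obtain ⟨-, d', hd', h2⟩ := hP4 _ p hpP
    have hpd : p ∈ F.P d' := hP7 p hpP d' hd' (fun i hi => (h2 i hi).1)
    obtain ⟨-, -, s3, -, -, s6, -⟩ := hSOB F.γ F.M F.M hM
    have hpγ : p ∈ D (Iio F.γ) := D_mono (Iio_subset_Iio F.g.kg.le) (hP2 _ hpP)
    have h3 := s6 X hXM {p} (s3 p hpγ)
    have h4 : evl G {z : T | ∃ x ∈ X, ∃ y ∈ ({p} : Set T), z = .pr x y} = X := by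
      ext y
      constructor
      · rintro ⟨q, _, x, hx, p', _, h5⟩
        injection h5 with h6 h7
        rw [h6]
        exact hx
      · intro hy
        exact ⟨p, hp, y, hy, p, rfl, rfl⟩
    rw [← h4]
    refine h1 _ h3 ⟨d', hd', ?_⟩ ⟨d, hd, ?_⟩
    · rintro z ⟨x, _, y, hy, rfl⟩
      rw [mem_singleton_iff] at hy
      exact ⟨x, y, by rw [hy]; exact hpd, rfl⟩
    · rintro z ⟨x, hx, y, hy, rfl⟩
      exact hXd hx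
  · rintro X ⟨c, hc, rfl⟩
    obtain ⟨-, d, hd, hXd⟩ := (hK2 (dec c)).1 ⟨c, hc.1, rfl⟩
    refine ⟨d, hd, ?_⟩
    rintro y ⟨p, _, hp⟩
    exact (pr_mem.1 (hXd hp)).1
  · refine (hK4.image (evl G)).mono ?_
    rintro X ⟨c, hc, rfl⟩
    exact ⟨dec c, ((hK2 (dec c)).1 ⟨c, hc.1, rfl⟩).1, rfl⟩

end Pool.Agent.Helper17.OD.PkNMB
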