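import Pool.Agent.Helper17.OD.GoalsFP

/-!
MP_064283_lc, project OD of helper17, packet RED.
-/

set_option autoImplicit false

open Set

namespace Pool.Agent.Helper17.OD.PkRED

theorem thm (hRSQ : G_RSQ) (hGLM : G_GLM) (hBKH : G_BKH) (hPAD : G_PAD) (hAMG : G_AMG)
    (hRES : G_RES) (hPRO : G_PRO) (hPBD : G_PBD) (hPUN : G_PUN) : G_RED := by
  intro F j μ hj hμ E hE hEM p hp
  obtain ⟨hP1, hP2, hP3, hP4, hP5, hP6, hP7, hP8⟩ := hPBD F
  obtain ⟨hO1, hO2, hO3, hO4, hO5⟩ := hPRO F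
  have hsj : Order.succ j < F.κ := F.g.klim.succ_lt hj
  have hη : Order.IsSuccLimit (F.η j) := F.e.lim j hj
  have hη0 : 0 < F.η j := lt_of_le_of_lt zero_le (F.e.low j hj).2
  obtain ⟨h, hh1, hh2, hh3⟩ := hBKH F j μ hj hμ
  obtain ⟨q, hq1, hq2, hq3, hq4, hq5, hq6, hq7, hq8⟩ := hRSQ F j μ hj hμ E hE hEM h hh1 hh3 p hp
  obtain ⟨r, hr, hr1, hr2, -⟩ := hGLM F j (F.η j) q hj hη le_rfl hq1 hq3 hq4
    (fun x hx => by rw [hq2]; exact hq5 x hx) hq6 hq7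
  have hrp : F.Le F.κ r p := by
    have h1 := hr1 0 hη0
    rw [hq2] at h1
    exact h1
  refine ⟨r, hr, hrp, by rw [← hq2]; exact hr2, ?_⟩
  intro y hy t ht htr
  have htκ : t ∈ F.P F.κ := hP3 _ _ hsj.le ht
  have hlnt : ln t j < F.η j := (((hPUN F).2 _ _).1 ht).len j (Order.lt_succ j) hj
  obtain ⟨x, hx0, hx1, hx2⟩ := hh2 y hy (ln t j) hlnt
  obtain ⟨s, hs, hs1, hs2, -, -, hs5, hs6⟩ := (hPAD F j hj t htκ x hx1 hx0).2
  have hsP : s ∈ F.P (Order.succ j) := by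
    refine hP7 s hs _ hsj fun i hi => ?_
    rcases lt_or_ge i F.κ with h1 | h1
    · rw [(hs6 i h1 (by rintro rfl; exact absurd hi (not_le.2 (Order.lt_succ i)))).1]
      exact hP5 _ t ht i hi
    · exact hP5 _ s hs i h1
  have hsG : s ∈ Gd j x := by
    refine ⟨by rw [hs2]; exact Order.lt_succ x, ?_⟩
    rw [hs5]
    exact ((hRES F).1 s hs j hj.le).1
  have hst : F.Le (Order.succ j) s t := hO3 _ _ _ _ hsj.le hs1
  have hsr : F.Le (Order.succ j) s r := hO2 _ _ _ _ hst htr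
  have hsp : F.Le (Order.succ j) s p := hO2 _ _ _ _ hsr (hO3 _ _ _ _ hsj.le hrp)
  obtain ⟨t', ht', ht's, htE⟩ := hq8 x hx1 s hsP hsp hsG
  rw [hx2] at htE
  have hx3 : Order.succ x < F.η j := hη.succ_lt hx1
  have hqx := hq3 _ hx3
  have hrq := hr1 _ hx3
  have ht'r : F.Le (Order.succ j) t' r := hO2 _ _ _ _ ht's hsr
  have ht'q : F.Le (Order.succ j) t' (q (Order.succ x)) :=
    hO2 _ _ _ _ ht'r (hO3 _ _ _ _ hsj.le hrq)
  have hA1 := (hAMG F).1 (Order.succ j) hsj t' ht' r hr ht'r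
  have hA2 := (hAMG F).1 (Order.succ j) hsj t' ht' (q (Order.succ x)) hqx ht'q
  exact ⟨t', ht', hO2 _ _ _ _ ht's hst,
    (hE y hy).opn _ htE _ hA1.1 (hA2.2.2.2.2.2.2.2 r hr hrq ht'r)⟩

end Pool.Agent.Helper17.OD.PkRED
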