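import Pool.Agent.Helper17.OD.GoalsGE

/-!
MP_064283_lc, project OD of helper17, packet SVC.
-/

set_option autoImplicit false

open Set

namespace Pool.Agent.Helper17.OD.PkSVC

/-- The list of the first `n` values. -/
def lst : ℕ → (ℕ → T) → T
  | 0, _ => .nat 0
  | n + 1, c => .pr (c 0) (lst n (fun i => c (i + 1)))

theorem nth_nat : ∀ i : ℕ, nth (.nat 0) i = .nat 0
  | 0 => rfl
  | i + 1 => nth_nat i

theorem nth_lst : ∀ (n : ℕ) (c : ℕ → T) (i : ℕ),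
    nth (lst n c) i = if i < n then c i else .nat 0 := by
  intro n
  induction n with
  | zero => intro c i; exact nth_nat i
  | succ n ih =>
    intro c i
    cases i with
    | zero => rfl
    | succ i =>
      show nth (lst n (fun i => c (i + 1))) i = _
      rw [ih]
      by_cases h : i < n
      · rw [if_pos h, if_pos (by omega)]
      · rw [if_neg h, if_neg (by omega)]

theorem lst_mem {A : Set O} : ∀ (n : ℕ) (c : ℕ → T), (∀ i, c i ∈ D A) → lst n c ∈ D A := by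
  intro n
  induction n with
  | zero => intro c _; exact nat_mem _ _
  | succ n ih => intro c hc; exact pr_mem.2 ⟨hc 0, ih _ (fun i => hc (i + 1))⟩

theorem isNm_nat (F : FD) : IsNm F (.nat 0) := by
  refine ⟨nat_mem _ _, ?_, 0, lt_of_le_of_lt zero_le F.g.wk, ?_⟩
  · rintro c (h | ⟨-, h⟩)
    · have h1 : supl (.nat 0) ≤ 0 := csInf_le' (nat_mem _ _)
      exact absurd (lt_of_lt_of_le h h1) not_lt_zero
    · cases c with
      | nat m => exact absurd h (Nat.not_lt_zero m)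
      | ord a => exact h.elim
      | pr s t => exact h.elim
  · rintro z ⟨b, φ, v, h, -⟩
    exact absurd h (by simp)

theorem thm (hTRL : G_TRL) (hFSD : G_FSD) (hNRD : G_NRD) (hTRS : G_TRS)
    (hPUN : G_PUN) : G_SVC := by
  intro F G hG φ e he σ hσ d hd
  have hM : SOM F.γ F.M F.M := F.g.m1
  have hκγ : F.κ < F.γ := F.g.kg
  have hsub : D (Iio F.κ) ⊆ D (Iio F.γ) := D_mono (Iio_subset_Iio hκγ.le)
  have hσ' : ∀ i, ∃ c, IsNm F c ∧ σ i = evl G (dec c) := hσ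
  choose c hc1 hc2 using hσ'
  obtain ⟨n, hn⟩ := hTRS.2.1 φ
  obtain ⟨K, hK⟩ : ∃ K, K = lst n c := ⟨_, rfl⟩
  have hKκ : K ∈ D (Iio F.κ) := by rw [hK]; exact lst_mem n c (fun i => (hc1 i).1)
  have hKn : ∀ i, IsNm F (nth K i) := by
    intro i
    rw [hK, nth_lst]
    split_ifs
    · exact hc1 i
    · exact isNm_nat F
  have hKσ : ∀ i < n, σ i = evl G (dec (nth K i)) := by
    intro i hi
    rw [hK, nth_lst, if_pos hi]
    exact hc2 i
  have hDd : D (Iio d) ∈ F.M := by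
    have h1 := SOM.sep (h := hM) (P := fun _ => True) (SD.const (h := hM)) (hd.trans hκγ)
    convert h1 using 1
    ext x
    simp
  have hτ : {z : T | ∃ x ∈ D (Iio d), ∃ p, z = .pr x p ∧ p ∈ F.P F.κ ∧ x ∈ D (Iio F.κ) ∧
      p ∈ D (Iio F.κ) ∧ Frc F φ p (.pr x e) (nth K)} ∈ F.M := by
    refine SOM.of_SD (h := hM) hκγ ?_ ?_
    · rintro z ⟨x, hx, p, rfl, hp, hxk, hpk, _⟩
      exact pr_mem.2 ⟨hxk, hpk⟩
    · have h1 := (hFSD F).2 φ
      have hDk : D (Iio F.κ) ∈ F.M := by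
        have h1 := SOM.sep (h := hM) (P := fun _ => True) (SD.const (h := hM)) hκγ
        convert h1 using 1
        ext x
        simp
      have h2 : SD F.γ F.M F.M (fun z _ => (fun a b c => a ∈ F.P F.κ ∧ b ∈ D (Iio F.κ) ∧
          c ∈ D (Iio F.κ) ∧ Frc F φ a b (nth c)) z.snd (.pr z.fst e) K) := by
        refine SD.app3 (R := fun a b c => a ∈ F.P F.κ ∧ b ∈ D (Iio F.κ) ∧
          c ∈ D (Iio F.κ) ∧ Frc F φ a b (nth c)) h1 ?_ ?_ ?_
        · exact ST.snd ST.id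
        · exact ST.pr (ST.fst ST.id) (ST.const (hsub he))
        · exact ST.const (hsub hKκ)
      have h3 : SD F.γ F.M F.M (fun z _ => z.fst ∈ D (Iio d) ∧ z = .pr z.fst z.snd ∧
          z.snd ∈ D (Iio F.κ) ∧ (fun a b c => a ∈ F.P F.κ ∧ b ∈ D (Iio F.κ) ∧
          c ∈ D (Iio F.κ) ∧ Frc F φ a b (nth c)) z.snd (.pr z.fst e) K) := by
        apply_rules [SD.and, SD.mem, SD.eq, ST.id, ST.fst, ST.snd, ST.pr, SV.par]
      refine h3.congr fun z hz _ _ => ?_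
      constructor
      · rintro ⟨g1, g2, g3, g4, g5, g6, g7⟩
        exact ⟨z.fst, g1, z.snd, g2, g4, (pr_mem.1 g5).1, g3, g7⟩
      · rintro ⟨x, hx, p, rfl, hp, hxk, hpk, h⟩
        exact ⟨hx, rfl, hpk, hp, pr_mem.2 ⟨hxk, he⟩, hKκ, h⟩
  have hd' : d < F.η d := (F.e.low d hd).2
  obtain ⟨c', hc', -, hcc⟩ := hNRD F G hG d d hd hd' _ hτ (by
    rintro z ⟨x, hx, p, rfl, hp, -⟩
    exact ⟨x, hx, p, hp, rfl⟩)
  refine ⟨c', hc', ?_⟩
  rw [← hcc]
  ext x
  constructor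
  · rintro ⟨hx, hs⟩
    have hxk : x ∈ D (Iio F.κ) := D_mono (Iio_subset_Iio hd.le) hx
    have h1 : Sat F.κ (SG F G) φ (.pr x e) (fun i => evl G (dec (nth K i))) :=
      (hn _ _ _ _ _ (fun i hi => hKσ i hi)).1 hs
    obtain ⟨p, hp, hF⟩ := (hTRL F G hG φ _ (pr_mem.2 ⟨hxk, he⟩) _ hKn).1 h1
    exact ⟨p, hp, x, hx, p, rfl, hG.sub hp, hxk, (((hPUN F).2 _ _).1 (hG.sub hp)).low, hF⟩
  · rintro ⟨p, hp, x', hx', p', h1, hp', hxk, hpk, h⟩
    injection h1 with h2 h3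
    subst h2 h3
    refine ⟨hx', ?_⟩
    refine (hn _ _ _ _ _ (fun i hi => hKσ i hi)).2 ?_
    exact (hTRL F G hG φ _ (pr_mem.2 ⟨hxk, he⟩) _ hKn).2 ⟨p, hp, h⟩

end Pool.Agent.Helper17.OD.PkSVC
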