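import Pool.Agent.Helper17.OD.GoalsMA

/-!
MP_064283_lc, project OD of helper17, packet CLL.
-/

set_option autoImplicit false

open Set

namespace Pool.Agent.Helper17.OD.PkCLL

theorem thm : G_CLL := by
  intro a ha Q A t hQ ht
  induction ht with
  | nat n =>
    obtain ⟨b, hb⟩ : ∃ b, b < a := by
      have h := ha.1
      rw [not_isMin_iff] at h
      exact h
    exact ⟨b, hb, fun c _ _ Q' => TCl.nat n⟩
  | @base x hx hxa =>
    exact ⟨Order.succ x, ha.succ_lt hxa, fun c hc _ Q' => TCl.base hx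
      ((Order.lt_succ x).trans_le hc)⟩
  | pr _ _ ih1 ih2 =>
    obtain ⟨b1, h1, g1⟩ := ih1
    obtain ⟨b2, h2, g2⟩ := ih2
    exact ⟨max b1 b2, max_lt h1 h2, fun c hc hca Q' => TCl.pr
      (g1 c ((le_max_left _ _).trans hc) hca Q') (g2 c ((le_max_right _ _).trans hc) hca Q')⟩
  | fst _ ih =>
    obtain ⟨b, h, g⟩ := ih
    exact ⟨b, h, fun c hc hca Q' => TCl.fst (g c hc hca Q')⟩
  | snd _ ih =>
    obtain ⟨b, h, g⟩ := ih
    exact ⟨b, h, fun c hc hca Q' => TCl.snd (g c hc hca Q')⟩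
  | @inner b φ e x _ hba _ he hw ih1 ih2 =>
    obtain ⟨b1, h1, g1⟩ := ih1
    obtain ⟨b2, h2, g2⟩ := ih2
    refine ⟨max (Order.succ b) (max b1 b2), max_lt (ha.succ_lt hba) (max_lt h1 h2),
      fun c hc hca Q' => ?_⟩
    have hc1 : Order.succ b ≤ c := (le_max_left _ _).trans hc
    have hc2 : max b1 b2 ≤ c := (le_max_right _ _).trans hc
    exact TCl.inner (g1 c ((le_max_left _ _).trans hc2) hca Q') ((Order.lt_succ b).trans_le hc1)
      (g2 c ((le_max_right _ _).trans hc2) hca Q') he hw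
  | top _ hq _ _ => exact absurd hq (hQ _ _)

end Pool.Agent.Helper17.OD.PkCLL
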